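import Pool.Agent.Q297.OcG

/-!
The expected transport cost of exponent `1/2` between the occupation measure of stationary Brownian
motion on the 3-torus and the uniform measure is at least `c √T log T`.
-/

open MeasureTheory ProbabilityTheory Set Filter Topology
open scoped ENNReal NNReal

namespace Pool.Agent.Results.MP_1d7982_pr.SqrtTLogT

/-- the flat torus `ℝ³/ℤ³` -/
abbrev Torus := Fin 3 → UnitAddCircle

/-- the Haar probability measure on the torus -/
noncomputable def leb : Measure Torus := Measure.pi fun _ => AddCircle.haarAddCircle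

/-- the quotient distance -/
noncomputable def tdist (x y : Torus) : ℝ := Real.sqrt (∑ i, ‖x i - y i‖ ^ 2)

/-- couplings of two measures -/
def Coupl (μ ν : Measure Torus) : Set (Measure (Torus × Torus)) :=
  {π | π.map Prod.fst = μ ∧ π.map Prod.snd = ν}

/-- the transport cost `W^p(μ, ν)` -/
noncomputable def W (p : ℝ) (μ ν : Measure Torus) : ℝ≥0∞ :=
  ⨅ π ∈ Coupl μ ν, ∫⁻ z, ENNReal.ofReal (tdist z.1 z.2 ^ p) ∂π

/-- the transport cost `W^p(μ, μ(𝕋³) Leb)` -/
noncomputable def WT (p : ℝ) (μ : Measure Torus) : ℝ≥0∞ := W p μ (μ univ • leb)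

/-- stationary Brownian motion on the torus: the projection of a standard Brownian motion `X`
(with respect to a filtration) added to a uniform starting point which is known at time `0` -/
def IsStationaryBM {Ω : Type*} [mΩ : MeasurableSpace Ω] (P : Measure Ω)
    (B : ℝ≥0 → Ω → Torus) : Prop :=
  ∃ (𝓕 : Filtration ℝ≥0 mΩ) (X : ℝ≥0 → Ω → Fin 3 → ℝ),
    Measurable[𝓕 0] (B 0) ∧ P.map (B 0) = leb ∧
    (∀ t, Measurable[𝓕 t] (X t)) ∧ (∀ ω, X 0 ω = 0) ∧ (∀ ω, Continuous fun t => X t ω) ∧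
    (∀ s t, s ≤ t → Indep (MeasurableSpace.comap (fun ω => X t ω - X s ω) inferInstance) (𝓕 s) P ∧
      P.map (fun ω => X t ω - X s ω) = Measure.pi fun _ => gaussianReal 0 (t - s)) ∧
    ∀ t ω, B t ω = B 0 ω + fun i => ((X t ω i : ℝ) : UnitAddCircle)

/-- the occupation measure `∫_0^T δ_{B_t} dt` -/
noncomputable def occ {Ω : Type*} (B : ℝ≥0 → Ω → Torus) (T : ℝ) (ω : Ω) : Measure Torus :=
  (volume.restrict (Icc 0 T)).map fun t : ℝ => B t.toNNReal ω

/-- the expected cost `E W^{1/2}(μ_T)` -/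
noncomputable def EW {Ω : Type*} [MeasurableSpace Ω] (P : Measure Ω) (B : ℝ≥0 → Ω → Torus)
    (T : ℝ) : ℝ≥0∞ := ∫⁻ ω, WT (1 / 2) (occ B T ω) ∂P

/-- the asymptotics asked for in Q1 -/
def Q1 {Ω : Type*} [MeasurableSpace Ω] (P : Measure Ω) (B : ℝ≥0 → Ω → Torus) : Prop :=
  ∃ c : ℝ, 0 < c ∧ ∀ᶠ T : ℝ in atTop,
    ENNReal.ofReal (c⁻¹ * √(T * Real.log T)) ≤ EW P B T ∧
      EW P B T ≤ ENNReal.ofReal (c * √(T * Real.log T))

/-- **Main theorem.**  `E W^{1/2}(μ_T) ≥ c √T log T` for all `T ≥ 1`, so it is not of the order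
`√(T log T)`. -/
theorem result : ∃ c : ℝ, 0 < c ∧ ∀ (Ω : Type*) (_ : MeasurableSpace Ω) (P : Measure Ω)
    (_ : IsProbabilityMeasure P) (B : ℝ≥0 → Ω → Torus), IsStationaryBM P B →
      (∀ T : ℝ, 1 ≤ T → ENNReal.ofReal (c * (√T * Real.log T)) ≤ EW P B T) ∧ ¬ Q1 P B := by
  refine ⟨Q297.Oc.γ / 2496, div_pos Q297.Oc.γ_pos (by norm_num), ?_⟩
  intro Ω mΩ P hP B ⟨𝓕, X, h0, _, hX, _, hc, hi, hB⟩
  have hmk := Q297.Oc.mk_of_bm (P := P) h0 hX hc hi hB
  have h1 : ∀ T : ℝ, 1 ≤ T →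
      ENNReal.ofReal (Q297.Oc.γ / 2496 * (√T * Real.log T)) ≤ EW P B T :=
    fun T hT => Q297.Oc.main_mk hmk hT
  refine ⟨h1, ?_⟩
  rintro ⟨c, hc0, hev⟩
  set κ := Q297.Oc.γ / 2496 with hκ
  have hκ0 : 0 < κ := div_pos Q297.Oc.γ_pos (by norm_num)
  obtain ⟨T, hT1, hT2, hT3⟩ := (hev.and ((eventually_ge_atTop (1 : ℝ)).and
    ((Real.tendsto_log_atTop.eventually_gt_atTop ((c / κ) ^ 2))))).exists
  have h2 := (h1 T hT2).trans hT1.2
  have hlog : 0 < Real.log T := lt_of_le_of_lt (by positivity) hT3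
  rw [ENNReal.ofReal_le_ofReal_iff (by positivity), Real.sqrt_mul (by linarith)] at h2
  have hs : 0 < √T := Real.sqrt_pos.2 (by linarith)
  have h3 : Real.log T = √(Real.log T) * √(Real.log T) := (Real.mul_self_sqrt hlog.le).symm
  have hl : 0 < √(Real.log T) := Real.sqrt_pos.2 hlog
  have h4 : κ * √(Real.log T) ≤ c := by
    have h5 : (√T * √(Real.log T)) * (κ * √(Real.log T)) ≤ (√T * √(Real.log T)) * c := by
      calc (√T * √(Real.log T)) * (κ * √(Real.log T)) =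
            κ * (√T * (√(Real.log T) * √(Real.log T))) := by ring
        _ = κ * (√T * Real.log T) := by rw [← h3]
        _ ≤ c * (√T * √(Real.log T)) := h2
        _ = _ := by ring
    exact le_of_mul_le_mul_left h5 (by positivity)
  have h5 : √(Real.log T) ≤ c / κ := by
    rw [le_div_iff₀ hκ0]; linarith
  have h6 : c / κ < √(Real.log T) := Real.lt_sqrt_of_sq_lt hT3
  linarith

end Pool.Agent.Results.MP_1d7982_pr.SqrtTLogT
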